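import Mathlib
import Pool.Agent.H80.LN.Main

set_option autoImplicit false

universe u

namespace Pool.Agent.Results.MP_689fa4_al.NoncompactAbelian

/-- `G` is locally nilpotent: every finitely generated subgroup of the abstract group `G` is
nilpotent. -/
def LocallyNilpotent (G : Type u) [Group G] : Prop :=
  ∀ H : Subgroup G, H.FG → Group.IsNilpotent H

/-- Condition (C): every closed subgroup `H` of `G` which is different from `G` is compact. -/
def ProperClosedSubgroupsCompact (G : Type u) [Group G] [TopologicalSpace G] : Prop :=
  ∀ H : Subgroup G, (H : Set G) ≠ Set.univ → IsClosed (H : Set G) → IsCompact (H : Set G)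

/-- Let `G` be a locally compact Hausdorff group which is not compact and in which every proper
closed subgroup is compact.  Then `G` is locally nilpotent if and only if it is abelian. -/
theorem result (G : Type u) [Group G] [TopologicalSpace G] [IsTopologicalGroup G]
    [LocallyCompactSpace G] [T2Space G] (hC : ProperClosedSubgroupsCompact G)
    (hnc : ¬ IsCompact (Set.univ : Set G)) :
    LocallyNilpotent G ↔ ∀ a b : G, a * b = b * a := by
  constructor
  · intro hN
    refine Pool.Agent.H80.LN.main G (fun s => hN _ ⟨s, rfl⟩) ?_ ?_
    · intro H hH hne
      refine hC H ?_ hH
      intro h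
      exact hne (by
        apply SetLike.coe_injective
        rw [h, Subgroup.coe_top])
    · intro h
      exact hnc h.isCompact_univ
  · intro hab H _
    let _ : CommGroup H := { (inferInstance : Group H) with
      mul_comm := fun a b => Subtype.ext (hab a b) }
    exact CommGroup.isNilpotent

end Pool.Agent.Results.MP_689fa4_al.NoncompactAbelian
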